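import Pool.Agent.Y292.KS.Stm

/-!
# KS-UNI: uniqueness of the special segments
-/

set_option autoImplicit false

namespace Pool.Agent.Y286.KS

open Set Metric Filter Topology Pool.Agent.Y292.KS

theorem tau_eq {m : ℕ} {z : V m × V m} {q w : F m} (h : tau z q = w) : q = tau (-z) w := by
  subst h
  unfold tau
  refine Prod.ext rfl ?_
  simp only [Prod.fst_neg, Prod.snd_neg, smul_neg]
  abel

theorem t_UNI : S_UNI := by
  intro m T κ A β r B X hG hXT hX hseg d hd p hp
  have hT := hG.hT
  have hT0 : (0 : ℝ) < 32 * T := by linarith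
  have hb : ∀ k, β (k + 1) ≤ β k / 64 := hG.dec
  have hpos := hG.pos
  have hrho : ∀ k, rho T (β k) ≤ β k := fun k => by
    unfold rho
    exact div_le_self (hpos k).le (by linarith)
  have hrho0 : ∀ k, 0 < rho T (β k) := fun k => div_pos (hpos k) hT0
  have hrho1 : ∀ k, rho T (β (k + 1)) ≤ rho T (β k) / 64 := fun k => by
    unfold rho
    rw [show β k / (32 * T) / 64 = β k / 64 / (32 * T) by ring]
    exact div_le_div_of_nonneg_right (hb k) hT0.le
  have h1 : ∀ k, ‖d k‖ ≤ β k / 2 := by
    intro k
    have hbox := hG.box k (d k) (hd k)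
    rw [Prod.norm_def]
    refine max_le ?_ ?_
    · refine (pi_norm_le_iff_of_nonneg (by have := hpos k; linarith)).mpr fun i => ?_
      rw [Real.norm_of_nonneg (hbox.1 i).1]
      exact (hbox.1 i).2
    · have := hrho k
      linarith [hbox.2]
  have h2 : ∀ k, β k ≤ (1 / 64 : ℝ) ^ k := by
    intro k
    induction k with
    | zero => simpa using hG.one
    | succ k ih =>
      have := hb k
      rw [pow_succ]
      linarith
  have hs : Summable d := by
    refine Summable.of_norm_bounded (g := fun k => (1 / 64 : ℝ) ^ k)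
      (summable_geometric_of_lt_one (by norm_num) (by norm_num)) fun k => ?_
    have := h1 k
    have := h2 k
    have := hpos k
    linarith
  set S : V m × V m := ∑' k, d k with hS
  have hlim : Tendsto (fun n => ∑ i ∈ Finset.range n, d i) atTop (𝓝 S) :=
    hs.hasSum.tendsto_sum_nat
  have h3 : ∀ k n, ‖(∑ i ∈ Finset.range (k + 1 + n), d i - ∑ i ∈ Finset.range (k + 1), d i).2‖ ≤
      2 / 3 * (rho T (β (k + 1)) - rho T (β (k + 1 + n))) := by
    intro k n
    induction n with
    | zero => simp
    | succ n ih =>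
      rw [← add_assoc, Finset.sum_range_succ,
        show ∑ i ∈ Finset.range (k + 1 + n), d i + d (k + 1 + n) -
          ∑ i ∈ Finset.range (k + 1), d i = (∑ i ∈ Finset.range (k + 1 + n), d i -
          ∑ i ∈ Finset.range (k + 1), d i) + d (k + 1 + n) by abel, Prod.snd_add]
      refine (norm_add_le _ _).trans ?_
      have h4 := (hG.box (k + 1 + n) _ (hd (k + 1 + n))).2
      have h5 := hrho1 (k + 1 + n)
      have h6 := hrho0 (k + 1 + n)
      linarith
  have h4 : ∀ k, ‖S.2 - (∑ i ∈ Finset.range (k + 1), d i).2‖ ≤ 2 / 3 * rho T (β (k + 1)) := by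
    intro k
    have h5 : Tendsto (fun n => ‖(∑ i ∈ Finset.range (k + 1 + n), d i -
        ∑ i ∈ Finset.range (k + 1), d i).2‖) atTop
        (𝓝 ‖(S - ∑ i ∈ Finset.range (k + 1), d i).2‖) := by
      have h6 : Tendsto (fun n => ∑ i ∈ Finset.range (k + 1 + n), d i) atTop (𝓝 S) := by
        have := (tendsto_add_atTop_iff_nat (f := fun n => ∑ i ∈ Finset.range n, d i) (k + 1)).mpr
          hlim
        refine this.congr fun n => ?_
        rw [add_comm]
      exact (((continuous_snd.tendsto _).comp (h6.sub_const _)).norm)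
    have h6 := le_of_tendsto' h5 (fun n => (h3 k n).trans (by
      have := (hrho0 (k + 1 + n)).le
      show 2 / 3 * (rho T (β (k + 1)) - rho T (β (k + 1 + n))) ≤ 2 / 3 * rho T (β (k + 1))
      linarith))
    exact h6
  have hclaim : ∀ k, SegIn κ (S.2 - (∑ i ∈ Finset.range k, d i).2)
      (tau (-(∑ i ∈ Finset.range k, d i)) p) (X k) := by
    intro k
    induction k with
    | zero =>
      have h5 : tau (-(∑ i ∈ Finset.range 0, d i)) p = p := by
        unfold tau
        refine Prod.ext rfl ?_
        simp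
      rw [h5]
      simpa using hp
    | succ k ih =>
      rw [hX k] at ih
      have h5 := hseg k (X (k + 1)) _ _ (hXT (k + 1)) ih (d k) (hd k) (by
        have := h4 k
        rw [Finset.sum_range_succ, Prod.snd_add, ← sub_sub] at this
        exact this)
      intro s hs'
      obtain ⟨q, hq, hqe⟩ := h5 s hs'
      have h6 := tau_eq hqe
      rw [h6] at hq
      convert hq using 1
      unfold tau
      refine Prod.ext rfl ?_
      simp only [Prod.fst_neg, Prod.snd_neg, smul_neg, Finset.sum_range_succ, Prod.fst_add,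
        Prod.snd_add, smul_sub, smul_add, add_smul, neg_add]
      abel
  have h5 : ∀ k, ‖p.2 - (∑ i ∈ Finset.range k, d i).1 - p.1 • (∑ i ∈ Finset.range k, d i).2‖ ≤
      β k := by
    intro k
    have h6 := hXT k (hclaim k 0 ⟨le_rfl, hG.hk0.le⟩)
    have h7 := h6.2
    simp only [tau, zero_smul, add_zero, Prod.fst_neg, Prod.snd_neg, smul_neg] at h7
    rwa [← sub_eq_add_neg, ← sub_eq_add_neg] at h7
  have h6 : Tendsto (fun k => ‖p.2 - (∑ i ∈ Finset.range k, d i).1 -
      p.1 • (∑ i ∈ Finset.range k, d i).2‖) atTop (𝓝 ‖p.2 - S.1 - p.1 • S.2‖) := by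
    refine Tendsto.norm ?_
    refine ((tendsto_const_nhds.sub ((continuous_fst.tendsto _).comp hlim)).sub
      (((continuous_snd.tendsto _).comp hlim).const_smul p.1))
  have h7 : Tendsto β atTop (𝓝 0) :=
    squeeze_zero (fun k => (hpos k).le) h2
      (tendsto_pow_atTop_nhds_zero_of_lt_one (by norm_num) (by norm_num))
  have h8 := le_of_tendsto_of_tendsto' h6 h7 h5
  have h9 := norm_le_zero_iff.mp h8
  rw [sub_sub, sub_eq_zero] at h9
  exact h9

end Pool.Agent.Y286.KS
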